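import Pool.Agent.H43.RT.Fin

set_option autoImplicit false

/-!
# Relative to a random oracle no total NP search problem is complete

The computation model, total NP search problems relative to an oracle, their many-one reductions,
the join of two oracles and the distribution of a random oracle are defined in
`Pool.Agent.H88.RO.Model`, Turing reductions (`Hst`, `TuringWithin`, `TuringRed`) in
`Pool.Agent.H65.EW.TDef`.

Theorem: let `B` be any oracle.  For almost every oracle `A` (independent fair coin tosses), for
every total NP search problem `T` relative to the join of `A` and `B` and for every `κ` there is a
total NP search problem `S` relative to the same oracle which does not reduce to `T`, neither by a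
many-one nor by a Turing reduction, neither in polynomial time nor in time `C * 2 ^ (n ^ κ)`,
whatever `C` is.

From many-one to Turing reductions (`Pool.Agent.H43.RT.Red`): let `H` be the total NP search
problem whose instances are `1^K 0 1^K 0 1^i 0 x` and whose solutions are the histories of the
`i`-th program, with clock `K`, on the input `x`, when its questions are answered by `T`-solutions.
A Turing reduction of `S` to `T` in time `C * 2 ^ (n ^ (κ + 1))` is a many-one reduction of `S` to
`H` in time `C' * 2 ^ (n ^ (κ + 2))`: the clock is written by doubling, and the solution is read
off at the first moment of the history at which the program gives one.  So the many-one form for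
`H` and `κ + 2` gives the Turing form for `T` and `κ`.

Sketch of the proof of the many-one form.  Fix the program of `T`, its clock and its length bound (countably many
choices) and `κ`; put `k = κ + 1`.  The instances of `S` are pairs `(u, b)`, written
`1^b 0 u`; only instances where `b` is a term `tow i`, `|u| ≤ i`, of a very fast growing sequence
(`tow (i + 1) = 2 ^ (2 ^ (tow i ^ k))`) carry a constraint.  The string `u` is read as a pair of
programs, run with the clock `2 ^ (b ^ k)`.  A solution of `(u, b)` is either a string `z` of length
`l = d * b ^ k` such that `A` holds of the `l - K` strings `1^j z`, `j < l - K`, where
`K = k0 + 2 |u| + 1`, or a proof that the pair of programs coded by `u` fails to reduce `S` to `T` at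
some earlier `(u, b')`, `b' < b`: a `T`-solution `y` of the instance of `T` computed from `(u, b')`
such that the second program does not produce a string `z` as above.  As `2 ^ (2 ^ (b' ^ k)) ≤ b`,
this can be verified in polynomial time.  If a pair of programs always worked then, by induction,
it would never fail, and it would always produce strings `z`; but almost surely the `A`-part of
some `(u, b)` has no solution.  Hence `S` does not reduce to `T` if it is total.

Totality.  Suppose that `A` is such that `T` is total, there is no earlier failure at `(u, b)` and
no string `z` for `(u, b)`.  Let `y` be a `T`-solution of the instance computed from
`(u, b)`.  For all but few strings `z` of length `l`, changing `A` to be true on the strings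
`1^j z`, `j < l - K`, affects neither the two runs nor the verification of `y`; so the changed
oracle has a failure at `(u, b)`.  As each change multiplies measures by at most `2 ^ (l - K)`, and
there are `2 ^ l` strings `z`, the probability of the first event is at most `2 ^ (1 - K)` times
that of the event that the first failure is at `(u, b)`.  The latter events are disjoint for fixed
`u`, and the sum over all `u` is at most `2 ^ (1 - k0)`.  So almost surely some `k0` makes `S`
total.
-/

namespace Pool.Agent.Results.MP_0a7732_lc.RandomOracle

open Pool.Agent.H88.RO Pool.Agent.H65.EW MeasureTheory

/-- **For every oracle `B` and almost every oracle `A`, no total NP search problem relative to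
the join of `A` and `B` is complete**, even under Turing reductions; moreover each such problem
`T` and each `κ` have a problem `S` that reduces to `T` neither in polynomial time nor in time
`C * 2 ^ (n ^ κ)`, neither by many-one nor by Turing reductions. -/
theorem result (B : List Bool → Bool) : ∀ᵐ A ∂randomOracle,
    ∀ (T : TFNP (join A B)) (κ : ℕ), ∃ S : TFNP (join A B),
      ¬ S.Reduces T ∧ ¬ TuringRed S T ∧ ∀ C : ℕ,
        ¬ S.ReducesWithin (fun n => C * 2 ^ n ^ κ) T ∧
        ¬ TuringWithin (fun n => C * 2 ^ n ^ κ) S T := Pool.Agent.H43.RT.main_turing B

end Pool.Agent.Results.MP_0a7732_lc.RandomOracle
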